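import Pool.Agent.helper55.VN.SpecD
import Pool.Agent.helper40.VQ.EDA

/-!
# vn:QDA: copy of vq:EDA (helper40) for the class `OKN`
-/

set_option autoImplicit false

open scoped MatrixGroups ContDiff Topology UpperHalfPlane ComplexConjugate ENNReal
open UpperHalfPlane MeasureTheory Filter Set

namespace Pool.Agent.VN

open Pool.Agent.RS Pool.Agent.VQ
open Pool.Agent.RPQ (CEig mean VV IsOp)

noncomputable section

theorem QDA_win (k : ℝ) (hk : 0 < k) : ∃ R0 : ℝ, 1 ≤ R0 ∧ ∀ R : ℝ, R0 ≤ R → 2 * R ^ (-(1 / 4) : ℝ) ≤ k := by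
  have h1 : Tendsto (fun R : ℝ => 2 * R ^ (-(1 / 4) : ℝ)) atTop (𝓝 (2 * 0)) :=
    (tendsto_rpow_neg_atTop (by norm_num : (0 : ℝ) < 1 / 4)).const_mul 2
  rw [mul_zero] at h1
  obtain ⟨R0, hR0⟩ := (h1.eventually_lt_const hk).exists_forall_of_atTop
  exact ⟨max 1 R0, le_max_left _ _, fun R hR => (hR0 R ((le_max_right _ _).trans hR)).le⟩

theorem QDA_meas {D : Dyn} {R t k : ℝ} {f : SL(2, ℝ) × ℝ → ℂ → ℂ} (hw : 2 * R ^ (-(1 / 4) : ℝ) ≤ k)
    (hc : ContinuousOn (fun x : (SL(2, ℝ) × ℝ) × ℍ => pF D t f x.1 x.2) {x | |x.1.2| ≤ k}) :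
    Measurable (fun x : (SL(2, ℝ) × ℝ) × ℍ => VFB_P D R t f x.1 x.2) := by
  classical
  have hs : MeasurableSet ((GW 2 R) ×ˢ (univ : Set ℍ)) := VFB_GWm.prod MeasurableSet.univ
  have h1 : ContinuousOn (fun x : (SL(2, ℝ) × ℝ) × ℍ => pF D t f x.1 x.2) ((GW 2 R) ×ˢ (univ : Set ℍ)) := by
    refine hc.mono fun x hx => ?_
    have h2 := hx.1.2
    show |x.1.2| ≤ k
    exact (abs_le.2 h2).trans hw
  have h2 := h1.measurable_piecewise (g := fun _ => (0 : ℂ)) continuousOn_const hs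
  have h3 : (fun x : (SL(2, ℝ) × ℝ) × ℍ => VFB_P D R t f x.1 x.2) =
      ((GW 2 R) ×ˢ (univ : Set ℍ)).piecewise (fun x => pF D t f x.1 x.2) (fun _ => (0 : ℂ)) := by
    funext x
    by_cases hx : x.1 ∈ GW 2 R
    · have hx' : x ∈ (GW 2 R) ×ˢ (univ : Set ℍ) := ⟨hx, mem_univ _⟩
      rw [piecewise_eq_of_mem _ _ _ hx', VFB_P_mem hx]
    · have hx' : x ∉ (GW 2 R) ×ˢ (univ : Set ℍ) := fun h => hx h.1
      rw [piecewise_eq_of_notMem _ _ _ hx', VFB_P_notMem hx]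
  rw [h3]
  exact h2

theorem QDA_inv {Γ : Subgroup SL(2, ℝ)} {D : Dyn} {R t k : ℝ} {f : SL(2, ℝ) × ℝ → ℂ → ℂ} (hw : 2 * R ^ (-(1 / 4) : ℝ) ≤ k)
    (hi : ∀ (γ : Γ) (p : SL(2, ℝ) × ℝ) (z : ℍ), |p.2| ≤ k → pF D t f ((γ : SL(2, ℝ)) * p.1, p.2) (γ • z) = pF D t f p z)
    (γ : Γ) (p : SL(2, ℝ) × ℝ) (z : ℍ) : VFB_P D R t f ((γ : SL(2, ℝ)) * p.1, p.2) (γ • z) = VFB_P D R t f p z := by
  by_cases hp : p ∈ GW 2 R
  · have hp' : ((γ : SL(2, ℝ)) * p.1, p.2) ∈ GW 2 R := ⟨mem_univ _, hp.2⟩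
    rw [VFB_P_mem hp, VFB_P_mem hp']
    exact hi γ p z ((abs_le.2 hp.2).trans hw)
  · have hp' : ((γ : SL(2, ℝ)) * p.1, p.2) ∉ GW 2 R := fun h => hp ⟨mem_univ _, h.2⟩
    rw [VFB_P_notMem hp, VFB_P_notMem hp']

/-- the sum over the frames -/
theorem QDA_col (hVCM : VCM_stmt) (hVCD : VCD_stmt) {D : Dyn} {R t m r k : ℝ} {f : SL(2, ℝ) × ℝ → ℂ → ℂ}
    (hfl : ∀ E : ℝ, |E| ≤ k → MeasurePreserving (D.fl E t) mG mG) (hw : 2 * R ^ (-(1 / 4) : ℝ) ≤ k)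
    (hmeas : Measurable (fun x : (SL(2, ℝ) × ℝ) × ℍ => VFB_P D R t f x.1 x.2)) (hm0 : 0 ≤ m)
    (h1 : ∀ p ∈ GW 2 R, ∀ v, ‖f p v‖ ≤ m) (h2 : ∀ p ∈ GW 2 R, ∀ v, f p v ≠ 0 → ‖v‖ ≤ r) (h0 : 0 ≤ r) (hr : r ≤ 1 / 2) (z : ℍ) :
    ∫⁻ p, ‖VFB_P D R t f p z‖ₑ ∂(mP.restrict (GW 2 R)) ≤ ENNReal.ofReal (m * (32 * r ^ 2) * (4 * R ^ (-(1 / 4) : ℝ))) := by
  have : SigmaFinite mG := RS.A_GMG.2.2.1
  have hmz : Measurable (fun p : SL(2, ℝ) × ℝ => ‖VFB_P D R t f p z‖ₑ) := by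
    have e1 : Measurable (fun p : SL(2, ℝ) × ℝ => (p, z)) := measurable_id.prodMk measurable_const
    exact (hmeas.comp e1).enorm
  have e1 : (mP.restrict (GW 2 R)) = mG.prod ((volume : Measure ℝ).restrict (Wi 2 R)) := by
    rw [mP, GW, ← Measure.prod_restrict, Measure.restrict_univ]
  rw [e1, lintegral_prod_symm' _ hmz]
  have hballm : MeasurableSet (Metric.closedBall z (2 * r)) := Metric.isClosed_closedBall.measurableSet
  have hdG := RS.A_GMG.1 _ hballm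
  calc ∫⁻ E in Wi 2 R, ∫⁻ g, ‖VFB_P D R t f (g, E) z‖ₑ ∂mG
      ≤ ∫⁻ _ in Wi 2 R, ENNReal.ofReal (m * (32 * r ^ 2)) := by
        refine setLIntegral_mono' measurableSet_Icc fun E hE => ?_
        have hE8 : |E| ≤ k := (abs_le.2 hE).trans hw
        have hpre : MeasurableSet (D.fl E t ⁻¹' dG (Metric.closedBall z (2 * r))) := (hfl E hE8).measurable hdG.1
        calc ∫⁻ g, ‖VFB_P D R t f (g, E) z‖ₑ ∂mG
            ≤ ∫⁻ g, (D.fl E t ⁻¹' dG (Metric.closedBall z (2 * r))).indicator (fun _ => ENNReal.ofReal m) g ∂mG := by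
              refine lintegral_mono fun g => ?_
              show ‖VFB_P D R t f (g, E) z‖ₑ ≤ _
              have hp : ((g, E) : SL(2, ℝ) × ℝ) ∈ GW 2 R := ⟨mem_univ _, hE⟩
              rw [VFB_P_mem hp]
              by_cases hz : pF D t f (g, E) z = 0
              · rw [hz, enorm_zero]
                exact zero_le
              · have h3 : ‖cd ((D.fl E t g)⁻¹ • z)‖ ≤ r := h2 _ hp _ hz
                obtain ⟨-, -, -, -, -, -, hd, -⟩ := hVCD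
                have h4 := hd _ (h3.trans (by linarith))
                have h5 : dist ((D.fl E t g)⁻¹ • z) I = dist (D.fl E t g • I : ℍ) z := by
                  have h6 := dist_smul (D.fl E t g) ((D.fl E t g)⁻¹ • z) I
                  rw [smul_inv_smul] at h6
                  rw [dist_comm (D.fl E t g • I : ℍ) z]
                  exact h6.symm
                have h6 : g ∈ D.fl E t ⁻¹' dG (Metric.closedBall z (2 * r)) := by
                  show (D.fl E t g • I : ℍ) ∈ Metric.closedBall z (2 * r)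
                  rw [Metric.mem_closedBall, ← h5]
                  linarith
                rw [indicator_of_mem h6, ← ofReal_norm]
                exact ENNReal.ofReal_le_ofReal (h1 _ hp _)
          _ = ENNReal.ofReal m * mG (D.fl E t ⁻¹' dG (Metric.closedBall z (2 * r))) := lintegral_indicator_const hpre _
          _ = ENNReal.ofReal m * volume (Metric.closedBall z (2 * r)) := by
              rw [(hfl E hE8).measure_preimage hdG.1.nullMeasurableSet, hdG.2]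
          _ ≤ ENNReal.ofReal m * ENNReal.ofReal (8 * (2 * r) ^ 2) := by
              gcongr
              exact EDA_ball hVCM hVCD z (2 * r) (by linarith) (by linarith)
          _ = ENNReal.ofReal (m * (32 * r ^ 2)) := by
              rw [← ENNReal.ofReal_mul hm0]
              congr 1
              ring
    _ = ENNReal.ofReal (m * (32 * r ^ 2)) * volume (Wi 2 R) := by
        rw [setLIntegral_const]
    _ = ENNReal.ofReal (m * (32 * r ^ 2) * (4 * R ^ (-(1 / 4) : ℝ))) := by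
        rw [Wi, Real.volume_Icc, ← ENNReal.ofReal_mul (by positivity)]
        congr 2
        ring

theorem QDA_proof (hVSH : VSH_stmt) (hVDM : VDM_stmt) (hNFM : NFM_stmt) (hNFR : NFR_stmt) (hNHM : NHM_stmt) (hVCM : VCM_stmt) (hVCD : VCD_stmt) : QDA_stmt := by
  intro k hk
  obtain ⟨C0, hC0, H⟩ := hNFM k hk
  obtain ⟨C3, -, H3⟩ := hNFR k hk
  obtain ⟨R3, -, H4⟩ := QDA_win k hk
  refine ⟨240 * C0, by linarith, fun ch B A hch hA => ?_⟩
  have hA0 : Adm C0 A := Adm_mono hA hC0 (by linarith)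
  obtain ⟨hz0, hz1, hz2, he3, -, -, hRg⟩ := Adm_small hA0 hC0
  obtain ⟨-, -, -, -, hup, -, -⟩ := Adm_small hA (by linarith)
  have hz10 : 0 < A.z1 := lt_of_lt_of_le hz0 hz1
  have hη0 : 0 < C0 * A.z1 := by positivity
  have hη : C0 * A.z1 ≤ 1 / 240 := by nlinarith
  obtain ⟨R0, hR0, HR⟩ := H ch 0 A.e3 A.z A.z1 B hch hRg
  refine ⟨max (max R0 R3) (2 ^ (400 : ℕ)), hR0.trans ((le_max_left _ _).trans (le_max_left _ _)), ?_⟩
  intro R t Γ F D φ hR hD hok hφ ht0 ht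
  have hRa : R0 ≤ R := ((le_max_left _ _).trans (le_max_left _ _)).trans hR
  have hw1 : 2 * R ^ (-(1 / 4) : ℝ) ≤ k := H4 R (((le_max_right _ _).trans (le_max_left _ _)).trans hR)
  obtain ⟨hRc, hRd⟩ := EDA_big ((le_max_right _ _).trans hR)
  clear hR
  have hR1 : (1 : ℝ) ≤ R := by linarith
  have ht' : |t| ≤ A.e3 * Real.log R := by
    rw [abs_of_nonneg ht0]
    exact ht
  obtain ⟨hFa, -, -, hpsi, -⟩ := HR R t Γ D hRa hok ht'
  obtain ⟨-, hw2⟩ := VFB_win hRc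
  set η : ℝ := C0 * A.z1 with hηd
  set m : ℝ := R ^ (3 / 2 + η) with hmd
  have hm0 : 0 ≤ m := by positivity
  set r : ℝ := R ^ (-(1 / 2) + η) with hrd
  have hr0 : 0 ≤ r := by positivity
  have hr4 : r ≤ 1 / 4 := hw2 η (by linarith)
  obtain ⟨hc, hbd, hinv, -, -, -⟩ := H3 Γ F B D 0 η m R t _ hD hok hη0 (by linarith) hm0 hr4 hw1 hR1 hFa
  have hmeas : Measurable (fun x : (SL(2, ℝ) × ℝ) × ℍ => VFB_P D R t (pv D ch A.z A.z1 R t) x.1 x.2) := QDA_meas hw1 hc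
  have hPinv := QDA_inv (Γ := Γ) hw1 hinv
  have hpk : ∀ p ∈ GW 2 R, (∀ v, ‖pv D ch A.z A.z1 R t p v‖ ≤ m) ∧ ∀ v, pv D ch A.z A.z1 R t p v ≠ 0 → ‖v‖ ≤ r :=
    fun p hp => EDA_pk (hFa.pk p hp)
  obtain ⟨hcG, hF, huni, hmpH, hWW⟩ := hVDM Γ F hD
  obtain ⟨hsf, hmp, -, hres, hdG, -⟩ := hWW (Wi 2 R) measurableSet_Icc
  set W : Measure (SL(2, ℝ) × ℝ) := mP.restrict (GW 2 R) with hWd
  have hsf' : SigmaFinite W := hsf
  have hresW : W.restrict (dG F ×ˢ univ) = mP.restrict (PW F 2 R) := hres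
  have hPWm : MeasurableSet (PW F 2 R) := hdG.prod measurableSet_Icc
  have hPG : PW F 2 R ⊆ GW 2 R := fun p hp => ⟨mem_univ _, hp.2⟩
  have hmain : ∫⁻ x in PW F 2 R, (∫⁻ z : ℍ, ‖VFB_P D R t (pv D ch A.z A.z1 R t) x z‖ₑ * ‖φ z‖ₑ) ^ 2 ∂mP ≤
      ENNReal.ofReal (m * (8 * r ^ 2)) * ENNReal.ofReal (m * (32 * r ^ 2) * (4 * R ^ (-(1 / 4) : ℝ))) * ∫⁻ z in F, ‖φ z‖ₑ ^ 2 := by
    rw [← hresW]
    refine (hVSH Γ (SL(2, ℝ) × ℝ) ℍ W volume (dG F ×ˢ univ) F ?_ ?_ ?_ ?_ ?_ ?_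
      (fun p z => ‖VFB_P D R t (pv D ch A.z A.z1 R t) p z‖ₑ) hmeas.enorm ?_).2 _ _ (fun z => ‖φ z‖ₑ) hφ.cont.measurable.enorm ?_ ?_ ?_
    · exact fun γ => hmp γ
    · exact hmpH
    · intro x
      obtain ⟨γ, h1, h2⟩ := huni (x.1 • I)
      refine ⟨γ, ⟨?_, mem_univ _⟩, fun γ' h' => h2 γ' ?_⟩
      · show (((γ : SL(2, ℝ)) * x.1) • I : ℍ) ∈ F
        rw [mul_smul]
        exact h1
      · have h3 : (((γ' : SL(2, ℝ)) * x.1) • I : ℍ) ∈ F := h'.1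
        rw [mul_smul] at h3
        exact h3
    · exact huni
    · exact hdG.prod MeasurableSet.univ
    · exact hF
    · intro γ p z
      show ‖VFB_P D R t (pv D ch A.z A.z1 R t) ((γ : SL(2, ℝ)) * p.1, p.2) (γ • z)‖ₑ = _
      rw [hPinv]
    · intro γ z
      show ‖φ (γ • z)‖ₑ = ‖φ z‖ₑ
      rw [hφ.inv]
    · intro p
      by_cases hp : p ∈ GW 2 R
      · refine le_trans (le_of_eq (lintegral_congr fun z => ?_)) (EDA_row hVCM hVCD (hpk p hp).1 (hpk p hp).2 hr0 (by linarith) (D.fl p.2 t p.1))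
        rw [VFB_P_mem hp, pF]
      · have h0 : ∀ z, ‖VFB_P D R t (pv D ch A.z A.z1 R t) p z‖ₑ = 0 := fun z => by rw [VFB_P_notMem hp, enorm_zero]
        simp [h0]
    · intro z
      exact QDA_col hVCM hVCD (fun E hE => hNHM Γ k B D hok E t hE) hw1 hmeas hm0
        (fun p hp => (hpk p hp).1) (fun p hp => (hpk p hp).2) hr0 (by linarith) z
  have hcongr : ∫⁻ p in PW F 2 R, (∫⁻ z : ℍ, ‖φ z‖ₑ * ‖psi D ch A.z A.z1 R t p z‖ₑ) ^ 2 ∂mP =
      ∫⁻ x in PW F 2 R, (∫⁻ z : ℍ, ‖VFB_P D R t (pv D ch A.z A.z1 R t) x z‖ₑ * ‖φ z‖ₑ) ^ 2 ∂mP := by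
    refine setLIntegral_congr_fun hPWm fun p hp => ?_
    congr 1
    refine lintegral_congr fun z => ?_
    rw [VFB_P_mem (hPG hp), hpsi, mul_comm]
  rw [hcongr]
  refine hmain.trans ?_
  rw [EDA_nn hF hφ, ← ENNReal.ofReal_mul (by positivity), ← ENNReal.ofReal_mul (by positivity)]
  refine ENNReal.ofReal_le_ofReal (mul_le_mul_of_nonneg_right (EDA_exp hR1 hRd hη) ?_)
  exact integral_nonneg fun z => by positivity

end

end Pool.Agent.VN
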