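import Pool.Agent.helper55.VN.SpecD
import Pool.Agent.helper25.VQ.EDI

/-!
# vn:QDI: copy of vq:EDI (helper25) for the class `OKN`
-/

set_option autoImplicit false

open scoped MatrixGroups ContDiff Topology UpperHalfPlane ComplexConjugate ENNReal
open UpperHalfPlane MeasureTheory Filter Set

namespace Pool.Agent.VN

open Pool.Agent.RS Pool.Agent.VQ
open Pool.Agent.RPQ (CEig mean VV IsOp)

noncomputable section

theorem QDI_phm {Γ : Subgroup SL(2, ℝ)} {k : ℝ} {B : ℕ → ℝ} {D : Dyn} (hD : OKN Γ k B D) (t : ℝ) :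
    Measurable (D.ph t) := by
  classical
  have : SecondCountableTopology SL(2, ℝ) := A_GLC.2.1
  have hs : MeasurableSet {x : SL(2, ℝ) × ℝ | |x.2| ≤ k} := by
    have : IsClosed {x : SL(2, ℝ) × ℝ | |x.2| ≤ k} :=
      isClosed_le (by fun_prop) continuous_const
    exact this.measurableSet
  have h1 : ContinuousOn (fun x : SL(2, ℝ) × ℝ => D.fl x.2 t x.1) {x | |x.2| ≤ k} := by
    have h2 : ContinuousOn (fun x : SL(2, ℝ) × ℝ => ((x.2, t, x.1) : ℝ × ℝ × SL(2, ℝ)))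
        {x | |x.2| ≤ k} := by
      refine Continuous.continuousOn ?_
      fun_prop
    exact hD.cfl.comp h2 (fun x hx => hx)
  have h3 : ContinuousOn (fun x : SL(2, ℝ) × ℝ => x.1) {x | |x.2| ≤ k}ᶜ := by
    refine Continuous.continuousOn ?_
    fun_prop
  have h4 := ContinuousOn.measurable_piecewise h1 h3 hs
  have h5 : (fun x : SL(2, ℝ) × ℝ => D.fl x.2 t x.1) =
      ({x : SL(2, ℝ) × ℝ | |x.2| ≤ k}).piecewise (fun x : SL(2, ℝ) × ℝ => D.fl x.2 t x.1) (fun x => x.1) := by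
    funext x
    by_cases hx : x ∈ {x : SL(2, ℝ) × ℝ | |x.2| ≤ k}
    · rw [Set.piecewise_eq_of_mem _ _ _ hx]
    · rw [Set.piecewise_eq_of_notMem _ _ _ hx]
      exact (hD.out x.2 t x.1 (not_le.1 hx)).1
  have h6 : Measurable (fun x : SL(2, ℝ) × ℝ => D.fl x.2 t x.1) := by
    rw [h5]
    exact h4
  exact h6.prodMk measurable_snd

theorem QDI_proof (hEAI : EAI_stmt) (hQD1 : QD1_stmt) (hQDC : QDC_stmt) (hQDW : QDW_stmt) (hNTS : NTS_stmt) (hNTN : NTN_stmt) (hNUM : NUM_stmt) : QDI_stmt := by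
  intro κ hκ
  obtain ⟨C1, hC1, H1⟩ := hQD1 κ hκ
  obtain ⟨C2, hC2, H2⟩ := hQDC κ hκ
  obtain ⟨C3, hC3, H3⟩ := hQDW κ hκ
  obtain ⟨C4, hC4, H4⟩ := hNTS κ hκ
  obtain ⟨C5, hC5, H5⟩ := hNTN κ hκ
  obtain ⟨C6, hC6, H6⟩ := hNUM κ hκ
  refine ⟨C1 + C2 + C3 + C4 + C5 + C6, by linarith, fun ch B A hch hA => ?_⟩
  obtain ⟨R1, hR1, H1⟩ := H1 ch B A hch (Adm_mono hA hC1 (by linarith))
  obtain ⟨R2, hR2, H2⟩ := H2 ch B A hch (Adm_mono hA hC2 (by linarith))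
  obtain ⟨R3, hR3, H3⟩ := H3 ch B A hch (Adm_mono hA hC3 (by linarith))
  obtain ⟨R4, hR4, H4⟩ := H4 ch B A hch (Adm_mono hA hC4 (by linarith))
  obtain ⟨R5, hR5, H5⟩ := H5 ch B A hch (Adm_mono hA hC5 (by linarith))
  obtain ⟨R6, hR6, H6⟩ := H6 ch B A hch (Adm_mono hA hC6 (by linarith))
  obtain ⟨R7, hR7, H7⟩ := EDI_num
  refine ⟨R1 + R2 + R3 + R4 + R5 + R6 + R7, by linarith, ?_⟩
  intro R w Γ F D f F' μ φ H hR hΓ hF hD hE hw hSV
  obtain ⟨n1, n2, n3, n4, n5, n6, n7⟩ := H7 R (by linarith)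
  have hDm : Dm Γ F := Or.inl ⟨hΓ, hF⟩
  obtain ⟨a1, -, a3, a4, a5⟩ := H3 R Γ F D f F' μ φ (by linarith) hΓ hF hD hE
  obtain ⟨b1, -⟩ := H1 R Γ F D f F' μ φ (by linarith) hΓ hF hD hE
  have c1 := H2 R w Γ F D _ _ (by linarith) hDm hD hw hSV a1
  have d1 := fun v hv => (H4 R Γ F D v (by linarith) hDm hD hv).2.2.1
  obtain ⟨t1, t2, -, -⟩ := (H5 R Γ F D (by linarith) hDm hD).2 f (A.sg R) hE.sm.inv
  obtain ⟨u1, -, -, u4, -, u6, -⟩ := H6 R Γ F D (by linarith) hDm hD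
  set Φ : SL(2, ℝ) × ℝ → ℂ := QF D.U ch A.z R φ with hΦdef
  set us' := us D ch A R with hus
  set E1 : SL(2, ℝ) × ℝ → ℂ := fun p => Complex.exp (-(((thP D f R (A.sg R) p : ℝ) : ℂ) * Complex.I)) with hE1
  have hE1m : Measurable E1 := by
    refine Complex.measurable_exp.comp ?_
    exact ((Complex.measurable_ofReal.comp t1).mul_const _).neg
  have hE1n : ∀ p, ‖E1 p‖ = 1 := by
    intro p
    show ‖Complex.exp (-(((thP D f R (A.sg R) p : ℝ) : ℂ) * Complex.I))‖ = 1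
    rw [← neg_mul, ← Complex.ofReal_neg, Complex.norm_exp_ofReal_mul_I]
  have hE1i : ∀ (γ : Γ) (p : SL(2, ℝ) × ℝ), E1 ((γ : SL(2, ℝ)) * p.1, p.2) = E1 p := by
    intro γ p
    show Complex.exp (-(((thP D f R (A.sg R) ((γ : SL(2, ℝ)) * p.1, p.2) : ℝ) : ℂ) * Complex.I)) = _
    rw [t2 γ p]
  have hHb : ∀ p, |H p| ≤ 1 := by
    intro p
    have := hSV.bd p
    rwa [Complex.norm_real, Real.norm_eq_abs] at this
  have hHm : Measurable H := by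
    have := Complex.measurable_re.comp hSV.meas
    exact this
  -- the functions
  have hHΦ : FP Γ F (fun q => ((H q : ℝ) : ℂ) * Φ q) := EDI_fpmul a1 hSV.meas hSV.bd hSV.inv
  have hOΦ : FP Γ F (Op us' Φ) := u6 us' Φ u1 u4 a1
  have hOHΦ : FP Γ F (Op us' (fun q => ((H q : ℝ) : ℂ) * Φ q)) := u6 us' _ u1 u4 hHΦ
  have hW : FP Γ F (fun p => E1 p * Op us' Φ p) := EDI_fpmul hOΦ hE1m (fun p => (hE1n p).le) hE1i
  have hY : FP Γ F (fun p => E1 p * Op us' (fun q => ((H q : ℝ) : ℂ) * Φ q) p) := EDI_fpmul hOHΦ hE1m (fun p => (hE1n p).le) hE1i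
  have hFm := hF.meas
  have hN0 : 0 ≤ nn F φ := integral_nonneg fun z => sq_nonneg _
  have hnP : ∀ v, 0 ≤ nP F 2 R v := fun v => integral_nonneg fun p => sq_nonneg _
  set r : ℝ := R ^ (-(1 / 140) : ℝ) with hr
  have hr0 : 0 ≤ r := Real.rpow_nonneg (by linarith) _
  set k : ℝ := R ^ (1 / 200 : ℝ) with hk
  have hk0 : 0 ≤ k := Real.rpow_nonneg (by linarith) _
  have hNle : nn F φ ≤ 2 * nP F 2 R Φ := by nlinarith
  have hR5 : 0 ≤ R ^ (-(1 / 5) : ℝ) := Real.rpow_nonneg (by linarith) _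
  have key := EDI_pure hEAI (mP.restrict (PW F 2 R)) (Φ := Φ) (W := fun p => E1 p * Op us' Φ p)
    (Y := fun p => E1 p * Op us' (fun q => ((H q : ℝ) : ℂ) * Φ q) p) (H := H) (G := fun p => H (D.ph (A.sg R) p))
    (EDI_fpL hFm R a1) (EDI_fpL hFm R hW) (EDI_fpL hFm R hY) hHm (hHm.comp (QDI_phm hD _)) hHb (fun p => hHb _) (2 * r) (w * k)
    (by positivity) n2 (by positivity) (fun s => ?_) ?_ ?_
  · refine key.trans ?_
    have e1 : ∫ x in PW F 2 R, ‖Φ x‖ ^ 2 ∂mP = nP F 2 R Φ := rfl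
    rw [e1]
    have e2 : 0 ≤ 2 * r + w * k + 10 * Real.sqrt (2 * r) := by positivity
    calc (2 * r + w * k + 10 * Real.sqrt (2 * r)) * nP F 2 R Φ ≤ (2 * r + w * k + 10 * Real.sqrt (2 * r)) * nn F φ := mul_le_mul_of_nonneg_left a3 e2
      _ ≤ (w * k + R ^ (-(1 / 300) : ℝ)) * nn F φ := mul_le_mul_of_nonneg_right (by linarith) hN0
  · have e1 : ∀ p, ‖E1 p * Op us' Φ p + s * (E1 p * Op us' (fun q => ((H q : ℝ) : ℂ) * Φ q) p)‖ ^ 2 = ‖Op us' (fun q => Φ q + s * (((H q : ℝ) : ℂ) * Φ q)) p‖ ^ 2 := by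
      intro p
      rw [EDI_lin u1 u4 a1 hHΦ s p]
      have e2 : E1 p * Op us' Φ p + s * (E1 p * Op us' (fun q => ((H q : ℝ) : ℂ) * Φ q) p) = E1 p * (Op us' Φ p + s * Op us' (fun q => ((H q : ℝ) : ℂ) * Φ q) p) := by ring
      rw [e2, norm_mul, hE1n, one_mul]
    simp only [e1]
    have e3 := d1 _ (EDI_fpadd a1 hHΦ s)
    refine e3.trans (mul_le_mul_of_nonneg_right ?_ (hnP _))
    exact pow_le_pow_left₀ (by linarith) (by linarith) 2
  · have e1 : ∀ p, ‖E1 p * Op us' Φ p - Φ p‖ ^ 2 = ‖Op us' Φ p - Complex.exp (((thP D f R (A.sg R) p : ℝ) : ℂ) * Complex.I) * Φ p‖ ^ 2 := by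
      intro p
      have e2 : E1 p * Complex.exp (((thP D f R (A.sg R) p : ℝ) : ℂ) * Complex.I) = 1 := by
        show Complex.exp (-(((thP D f R (A.sg R) p : ℝ) : ℂ) * Complex.I)) * _ = 1
        rw [← Complex.exp_add, neg_add_cancel, Complex.exp_zero]
      have e3 : E1 p * Op us' Φ p - Φ p = E1 p * (Op us' Φ p - Complex.exp (((thP D f R (A.sg R) p : ℝ) : ℂ) * Complex.I) * Φ p) := by
        rw [mul_sub, ← mul_assoc, e2, one_mul]
      rw [e3, norm_mul, hE1n, one_mul]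
    simp only [e1]
    refine b1.trans ?_
    rw [n5]
    have e4 : ∫ x in PW F 2 R, ‖Φ x‖ ^ 2 ∂mP = nP F 2 R Φ := rfl
    rw [e4]
    have e5 : 0 ≤ r ^ 2 := sq_nonneg _
    have e6 := hnP Φ
    nlinarith
  · have e1 : ∀ p, ‖E1 p * Op us' (fun q => ((H q : ℝ) : ℂ) * Φ q) p - ((H (D.ph (A.sg R) p) : ℝ) : ℂ) * (E1 p * Op us' Φ p)‖ ^ 2 =
        ‖Op us' (fun q => ((H q : ℝ) : ℂ) * Φ q) p - ((H (D.ph (A.sg R) p) : ℝ) : ℂ) * Op us' Φ p‖ ^ 2 := by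
      intro p
      have e3 : E1 p * Op us' (fun q => ((H q : ℝ) : ℂ) * Φ q) p - ((H (D.ph (A.sg R) p) : ℝ) : ℂ) * (E1 p * Op us' Φ p) =
          E1 p * (Op us' (fun q => ((H q : ℝ) : ℂ) * Φ q) p - ((H (D.ph (A.sg R) p) : ℝ) : ℂ) * Op us' Φ p) := by ring
      rw [e3, norm_mul, hE1n, one_mul]
    simp only [e1]
    refine c1.trans (le_of_eq ?_)
    rw [n7, mul_pow]
    rfl

end

end Pool.Agent.VN
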