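import Pool.Agent.helper55.VN.SpecD
import Pool.Agent.helper79.VQ.EDS
import Pool.Agent.helper77.VN.QDA

/-!
# vn:QDS: copy of vq:EDS (helper79) for the class `OKN`
-/

set_option autoImplicit false

open scoped MatrixGroups ContDiff Topology UpperHalfPlane ComplexConjugate ENNReal
open UpperHalfPlane MeasureTheory Filter Set

namespace Pool.Agent.VN

open Pool.Agent.RS Pool.Agent.VQ
open Pool.Agent.RPQ (CEig mean VV IsOp)

noncomputable section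

theorem QDS_meas {Γ : Subgroup SL(2, ℝ)} {k : ℝ} {B : ℕ → ℝ} {D : Dyn} (hD : OKN Γ k B D) (f : ℍ → ℝ) (hf : Continuous f) :
    Measurable (fun x : (SL(2, ℝ) × ℝ) × ℝ => D.U (D.fl x.1.2 x.2 x.1.1 • I) * f (D.fl x.1.2 x.2 x.1.1 • I)) := by
  classical
  have : SecondCountableTopology SL(2, ℝ) := A_GLC.2.1
  have hU : Continuous D.U := hD.pot.inv.1
  have hs : MeasurableSet {x : (SL(2, ℝ) × ℝ) × ℝ | |x.1.2| ≤ k} := by
    have : IsClosed {x : (SL(2, ℝ) × ℝ) × ℝ | |x.1.2| ≤ k} :=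
      isClosed_le (by fun_prop) continuous_const
    exact this.measurableSet
  have h1 : ContinuousOn (fun x : (SL(2, ℝ) × ℝ) × ℝ => D.fl x.1.2 x.2 x.1.1) {x | |x.1.2| ≤ k} := by
    have h2 : ContinuousOn (fun x : (SL(2, ℝ) × ℝ) × ℝ => ((x.1.2, x.2, x.1.1) : ℝ × ℝ × SL(2, ℝ)))
        {x | |x.1.2| ≤ k} := by
      refine Continuous.continuousOn ?_
      fun_prop
    exact hD.cfl.comp h2 (fun x hx => hx)
  have h3 : ContinuousOn (fun x : (SL(2, ℝ) × ℝ) × ℝ => x.1.1) {x | |x.1.2| ≤ k}ᶜ := by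
    refine Continuous.continuousOn ?_
    fun_prop
  have h4 := ContinuousOn.measurable_piecewise h1 h3 hs
  have h5 : (fun x : (SL(2, ℝ) × ℝ) × ℝ => D.fl x.1.2 x.2 x.1.1) =
      ({x : (SL(2, ℝ) × ℝ) × ℝ | |x.1.2| ≤ k}).piecewise (fun x : (SL(2, ℝ) × ℝ) × ℝ => D.fl x.1.2 x.2 x.1.1) (fun x => x.1.1) := by
    funext x
    by_cases hx : x ∈ {x : (SL(2, ℝ) × ℝ) × ℝ | |x.1.2| ≤ k}
    · rw [Set.piecewise_eq_of_mem _ _ _ hx]
    · rw [Set.piecewise_eq_of_notMem _ _ _ hx]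
      exact (hD.out x.1.2 x.2 x.1.1 (not_le.1 hx)).1
  have h6 : Measurable (fun x : (SL(2, ℝ) × ℝ) × ℝ => D.fl x.1.2 x.2 x.1.1) := by
    rw [h5]
    exact h4
  have h7 : Continuous (fun g : SL(2, ℝ) => D.U (g • I) * f (g • I)) :=
    (hU.comp VTN_smulI).mul (hf.comp VTN_smulI)
  exact h7.measurable.comp h6

theorem QDS_thM {Γ : Subgroup SL(2, ℝ)} {k : ℝ} {B : ℕ → ℝ} {D : Dyn} (hD : OKN Γ k B D) (f : ℍ → ℝ) (hf : Continuous f)
    (R t : ℝ) : Measurable (thP D f R t) := by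
  have h1 := QDS_meas hD f hf
  unfold thP
  refine measurable_const.mul ?_
  simp only [intervalIntegral]
  have h2 : ∀ s : Set ℝ, Measurable (fun p : SL(2, ℝ) × ℝ => ∫ u in s, D.U (D.fl p.2 u p.1 • I) * f (D.fl p.2 u p.1 • I)) := by
    intro s
    have h3 : StronglyMeasurable (Function.uncurry fun (p : SL(2, ℝ) × ℝ) (u : ℝ) =>
        D.U (D.fl p.2 u p.1 • I) * f (D.fl p.2 u p.1 • I)) := h1.stronglyMeasurable
    exact (h3.integral_prod_right (ν := volume.restrict s)).measurable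
  exact (h2 _).sub (h2 _)

theorem QDS_proof (hQDT : QDT_stmt) (hQDF : QDF_stmt) (hQDW : QDW_stmt) (hNSA : NSA_stmt) (hNFR : NFR_stmt) (hNFM : NFM_stmt)
    (hNUB : NUB_stmt) (hNHA : NHA_stmt) (hQDH : QDH_stmt) : QDS_stmt := by
  have _ := hNHA
  intro k hk
  obtain ⟨CU, -, HU⟩ := hNUB k hk
  obtain ⟨CR, -, HR⟩ := hNFR k hk
  obtain ⟨R7, -, HW7⟩ := QDA_win k hk
  obtain ⟨CT, hCT, HT⟩ := hQDT k hk
  obtain ⟨CF, hCF, HF⟩ := hQDF k hk
  obtain ⟨CW, hCW, HW⟩ := hQDW k hk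
  obtain ⟨CA, hCA, HA⟩ := hNSA k hk
  obtain ⟨CM, hCM, HM⟩ := hNFM k hk
  obtain ⟨RH, hRH, HH⟩ := hQDH k hk
  refine ⟨CT + CF + CW + CA + 4 * CM, by linarith, ?_⟩
  intro ch B A hch hA
  have hAT : Adm CT A := Adm_mono hA hCT (by linarith)
  have hAF : Adm CF A := Adm_mono hA hCF (by linarith)
  have hAW : Adm CW A := Adm_mono hA hCW (by linarith)
  have hAA : Adm CA A := Adm_mono hA hCA (by linarith)
  have hAM : Adm (4 * CM) A := Adm_mono hA (by linarith) (by linarith)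
  obtain ⟨-, -, -, -, -, -, hRgA⟩ := Adm_small hAA hCA
  obtain ⟨z0, z01, -, ez, -, -, m0, -, -, m1, m2⟩ := Adm_small hAM (by linarith)
  have hz1 : 0 < A.z1 := lt_of_lt_of_le z0 z01
  have hRgM : Rg CM A.e3 A.z A.z1 := ⟨m0, z0, z01, by nlinarith, by nlinarith⟩
  have hη0 : 0 < CM * A.z1 := by positivity
  have hη4 : CM * A.z1 ≤ 1 / 4 := by linarith
  obtain ⟨R1, hR1, HT1⟩ := HT ch B A hch hAT
  obtain ⟨R2, hR2, HF1⟩ := HF ch B A hch hAF
  obtain ⟨R3, hR3, HW1⟩ := HW ch B A hch hAW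
  obtain ⟨R4, hR4, HA1⟩ := HA ch A.e3 A.z A.z1 B hch hRgA
  obtain ⟨R5, hR5, HM1⟩ := HM ch 0 A.e3 A.z A.z1 B hch hRgM
  obtain ⟨R6, hR6, HN⟩ := EDS_num2
  refine ⟨max (max (max R1 R2) (max R3 R4)) (max (max R5 R6) (max RH R7)),
    hR1.trans ((le_max_left _ _).trans ((le_max_left _ _).trans (le_max_left _ _))), ?_⟩
  intro R s L Γ F D f F' μ φ h hR hS hNF hOK hEg hh hh1 hL hLip hs0 hs
  have k1 : R1 ≤ R := (le_max_left _ _).trans ((le_max_left _ _).trans ((le_max_left _ _).trans hR))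
  have k2 : R2 ≤ R := (le_max_right _ _).trans ((le_max_left _ _).trans ((le_max_left _ _).trans hR))
  have k3 : R3 ≤ R := (le_max_left _ _).trans ((le_max_right _ _).trans ((le_max_left _ _).trans hR))
  have k4 : R4 ≤ R := (le_max_right _ _).trans ((le_max_right _ _).trans ((le_max_left _ _).trans hR))
  have k5 : R5 ≤ R := (le_max_left _ _).trans ((le_max_left _ _).trans ((le_max_right _ _).trans hR))
  have k6 : R6 ≤ R := (le_max_right _ _).trans ((le_max_left _ _).trans ((le_max_right _ _).trans hR))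
  have k7 : RH ≤ R := (le_max_left _ _).trans ((le_max_right _ _).trans ((le_max_right _ _).trans hR))
  have k8 : R7 ≤ R := (le_max_right _ _).trans ((le_max_right _ _).trans ((le_max_right _ _).trans hR))
  have h17 : (17 : ℝ) ^ 8 ≤ R := hR6.trans k6
  have hR0 : 0 < R := lt_of_lt_of_le (by norm_num) h17
  have hR1' : 1 ≤ R := le_trans (by norm_num) h17
  obtain ⟨-, hη, -⟩ := VSA_num h17
  have hW := HW7 R k8
  obtain ⟨n1, n2, n3, n4, n5⟩ := HN R k6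
  have hDm : Dm Γ F := Or.inl ⟨hS, hNF⟩
  have hPU : PV Γ k D.U := (HU Γ B D.U hOK.pot).1
  have hFH : FH Γ F φ := (HH Γ F D.U R f F' μ φ k7 hS hNF hPU hEg).1
  obtain ⟨w1, -, w3, w4, w5⟩ := HW1 R Γ F D f F' μ φ k3 hS hNF hOK hEg
  have hs' : |s| ≤ A.e3 * Real.log R := by
    rw [abs_of_nonneg hs0]
    exact hs
  have hfam := (HM1 R s Γ D k5 hOK hs').1
  obtain ⟨-, -, -, r4, r5, r6⟩ := HR Γ F B D 0 (CM * A.z1) (R ^ (3 / 2 + CM * A.z1)) R s (pv D ch A.z A.z1 R s) hDm hOK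
    hη0 hη4 (Real.rpow_nonneg hR0.le _) (hη _ hη4) hW hR1' hfam
  have hhφ : FH Γ F (fun z => ((h z : ℝ) : ℂ) * φ z) := by
    refine ⟨(Complex.continuous_ofReal.comp hh.1).mul hFH.cont, fun γ z => ?_, ?_⟩
    · show ((h (γ • z) : ℝ) : ℂ) * φ (γ • z) = _
      rw [hh.2 γ z, hFH.inv γ z]
    · obtain ⟨b, hb⟩ := hFH.supp
      refine ⟨b, fun z hz h0 => hb z hz (fun h1 => h0 ?_)⟩
      show ((h z : ℝ) : ℂ) * φ z = 0
      rw [h1, mul_zero]
  have hP : FP Γ F (aF D R s (pv D ch A.z A.z1 R s) φ) := r5 φ hFH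
  have hPh : FP Γ F (aF D R s (pv D ch A.z A.z1 R s) (fun z => ((h z : ℝ) : ℂ) * φ z)) := r5 _ hhφ
  have hψ : FH Γ F (sF D R s (pv D ch A.z A.z1 R s) (aF D R s (pv D ch A.z A.z1 R s) φ)) := r4 _ hP
  have dual1 := r6 φ _ hFH hP
  have dual2 := r6 _ _ hhφ hP
  have eT := HT1 R s Γ F D f F' μ φ k1 hS hNF hOK hEg hs0 hs
  have eF := HF1 R s L Γ F D φ h k2 hDm hOK hFH hh hL hLip hs0 hs
  obtain ⟨a1, a2⟩ := HA1 R s Γ F D k4 hDm hOK hs0 hs
  have a1' := a1 _ hP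
  have a2' := a2 φ hFH
  have mθ : Measurable (thP D f R s) := QDS_thM hOK f hEg.sm.inv.1 R s
  have mη : Measurable (fun p : SL(2, ℝ) × ℝ => h (D.fl p.2 s p.1 • I)) := by
    have hU0 : ∀ z, D.U z ≠ 0 := fun z => by
      have := (hPU.bd z).1
      intro h0
      rw [h0] at this
      linarith
    have g1 := QDS_meas hOK (fun z => h z / D.U z) (hh.1.div hPU.inv.1 hU0)
    have g2 : (fun p : SL(2, ℝ) × ℝ => h (D.fl p.2 s p.1 • I)) =
        (fun x : (SL(2, ℝ) × ℝ) × ℝ => D.U (D.fl x.1.2 x.2 x.1.1 • I) * (h (D.fl x.1.2 x.2 x.1.1 • I) / D.U (D.fl x.1.2 x.2 x.1.1 • I))) ∘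
          (fun p => (p, s)) := by
      funext p
      show h (D.fl p.2 s p.1 • I) = D.U (D.fl p.2 s p.1 • I) * (h (D.fl p.2 s p.1 • I) / D.U (D.fl p.2 s p.1 • I))
      rw [mul_div_cancel₀ _ (hU0 _)]
    rw [g2]
    exact g1.comp (measurable_id.prodMk measurable_const)
  -- short names
  set P : SL(2, ℝ) × ℝ → ℂ := aF D R s (pv D ch A.z A.z1 R s) φ with hPdef
  set Ph : SL(2, ℝ) × ℝ → ℂ := aF D R s (pv D ch A.z A.z1 R s) (fun z => ((h z : ℝ) : ℂ) * φ z) with hPhdef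
  set ψ : ℍ → ℂ := sF D R s (pv D ch A.z A.z1 R s) P with hψdef
  set Φ : SL(2, ℝ) × ℝ → ℂ := QF D.U ch A.z R φ with hΦdef
  set b : SL(2, ℝ) × ℝ → ℂ := fun p => Complex.exp (((thP D f R s p : ℝ) : ℂ) * Complex.I) * Φ p with hbdef
  set η : SL(2, ℝ) × ℝ → ℝ := fun p => h (D.fl p.2 s p.1 • I) with hηdef
  set N : ℝ := nn F φ with hN
  have hN0 : 0 ≤ N := integral_nonneg (fun z => by positivity)
  have nb : ∀ p, ‖b p‖ = ‖Φ p‖ := by
    intro p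
    rw [hbdef]
    show ‖Complex.exp (((thP D f R s p : ℝ) : ℂ) * Complex.I) * Φ p‖ = _
    rw [norm_mul, Complex.norm_exp_ofReal_mul_I, one_mul]
  have mb : Measurable b :=
    (Complex.measurable_exp.comp ((Complex.measurable_ofReal.comp mθ).mul_const _)).mul w1.meas
  have hF := hNF.meas
  have iP : Integrable (fun p => ‖P p‖ ^ 2) (mP.restrict (PW F 2 R)) := VQA_fp hF R hP
  have iPh : Integrable (fun p => ‖Ph p‖ ^ 2) (mP.restrict (PW F 2 R)) := VQA_fp hF R hPh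
  have iΦ : Integrable (fun p => ‖Φ p‖ ^ 2) (mP.restrict (PW F 2 R)) := VQA_fp hF R w1
  have ib : Integrable (fun p => ‖b p‖ ^ 2) (mP.restrict (PW F 2 R)) := by
    simp only [nb]
    exact iΦ
  have hη1 : ∀ p, 0 ≤ η p ∧ η p ≤ 1 := fun p => hh1 _
  have mηP : Measurable (fun p => ((η p : ℝ) : ℂ) * P p) := (Complex.measurable_ofReal.comp mη).mul hP.meas
  have iηP : Integrable (fun p => ‖((η p : ℝ) : ℂ) * P p‖ ^ 2) (mP.restrict (PW F 2 R)) := by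
    refine Integrable.mono' iP (mηP.norm.pow_const 2).aestronglyMeasurable (Eventually.of_forall fun p => ?_)
    rw [Real.norm_of_nonneg (by positivity), norm_mul, Complex.norm_real, Real.norm_of_nonneg (hη1 p).1, mul_pow]
    exact mul_le_of_le_one_left (by positivity) (pow_le_one₀ (hη1 p).1 (hη1 p).2)
  -- the numbers
  set x : ℝ := Real.sqrt (nP F 2 R P) with hx
  set y : ℝ := Real.sqrt (nP F 2 R Φ) with hy
  set n : ℝ := Real.sqrt N with hn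
  have hnP : 0 ≤ nP F 2 R P := integral_nonneg (fun z => by positivity)
  have hnΦ : 0 ≤ nP F 2 R Φ := integral_nonneg (fun z => by positivity)
  have hn0 : 0 ≤ n := Real.sqrt_nonneg _
  have hx0 : 0 ≤ x := Real.sqrt_nonneg _
  have hy0 : 0 ≤ y := Real.sqrt_nonneg _
  have hn2 : n ^ 2 = N := Real.sq_sqrt hN0
  have hx2 : x ^ 2 = nP F 2 R P := Real.sq_sqrt hnP
  have hy2 : y ^ 2 = nP F 2 R Φ := Real.sq_sqrt hnΦ
  have hδ0 : 0 ≤ R ^ (-(1 / 4) : ℝ) := Real.rpow_nonneg hR0.le _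
  have hxn : x ≤ (1 + R ^ (-(1 / 4) : ℝ)) * n := by
    have := Real.sqrt_le_sqrt a2'
    rwa [Real.sqrt_mul (sq_nonneg _), Real.sqrt_sq (by positivity)] at this
  have hyn : y ≤ n := Real.sqrt_le_sqrt w3
  have sT : Real.sqrt (∫ p in PW F 2 R, ‖P p - b p‖ ^ 2 ∂mP) ≤ R ^ (-(1 / 120) : ℝ) * n := by
    have e1 := Real.sqrt_le_sqrt eT
    have e2 := EDS_sqrt (R := R) (a := -(1 / 120)) (L := 1) (N := N) hR0 zero_le_one
    rw [one_pow, one_mul, one_mul] at e2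
    have e3 : (2 : ℝ) * (-(1 / 120)) = -(1 / 60) := by norm_num
    rw [e3] at e2
    rw [e2] at e1
    exact e1
  have sF' : Real.sqrt (∫ p in PW F 2 R, ‖Ph p - ((η p : ℝ) : ℂ) * P p‖ ^ 2 ∂mP) ≤ L * R ^ (-(1 / 12) : ℝ) * n := by
    have e1 := Real.sqrt_le_sqrt eF
    have e2 := EDS_sqrt (R := R) (a := -(1 / 12)) (L := L) (N := N) hR0 hL
    have e3 : (2 : ℝ) * (-(1 / 12)) = -(1 / 6) := by norm_num
    rw [e3] at e2
    rw [e2] at e1
    exact e1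
  have hyx : y ≤ x + R ^ (-(1 / 120) : ℝ) * n := by
    have e1 := EDS_mink (mP.restrict (PW F 2 R)) hP.meas.aestronglyMeasurable mb.aestronglyMeasurable iP ib
    simp only [nb] at e1
    have e2 : Real.sqrt (∫ p in PW F 2 R, ‖Φ p‖ ^ 2 ∂mP) = y := rfl
    have e3 : Real.sqrt (∫ p in PW F 2 R, ‖P p‖ ^ 2 ∂mP) = x := rfl
    rw [e2, e3] at e1
    linarith
  -- first step
  have s1 : |(∫ p in PW F 2 R, η p * ‖Φ p‖ ^ 2 ∂mP) - ∫ p in PW F 2 R, η p * ‖P p‖ ^ 2 ∂mP| ≤ 3 * R ^ (-(1 / 120) : ℝ) * N := by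
    have e1 := EDS_eta (mP.restrict (PW F 2 R)) hP.meas.aestronglyMeasurable mb.aestronglyMeasurable iP ib mη.aestronglyMeasurable hη1
    simp only [nb] at e1
    have e2 : Real.sqrt (∫ p in PW F 2 R, ‖Φ p‖ ^ 2 ∂mP) = y := rfl
    have e3 : Real.sqrt (∫ p in PW F 2 R, ‖P p‖ ^ 2 ∂mP) = x := rfl
    rw [e2, e3] at e1
    rw [abs_sub_comm]
    have e4 : x + y ≤ 3 * n := by
      have : (1 + R ^ (-(1 / 4) : ℝ)) * n ≤ 2 * n := mul_le_mul_of_nonneg_right (by linarith) hn0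
      linarith
    calc _ ≤ _ := e1
      _ ≤ (R ^ (-(1 / 120) : ℝ) * n) * (3 * n) := mul_le_mul sT e4 (by positivity) (by positivity)
      _ = 3 * R ^ (-(1 / 120) : ℝ) * N := by rw [← hn2]; ring
  -- second step
  have s2 : ‖(∫ p in PW F 2 R, Ph p * conj (P p) ∂mP) - ((∫ p in PW F 2 R, η p * ‖P p‖ ^ 2 ∂mP : ℝ) : ℂ)‖ ≤
      2 * L * R ^ (-(1 / 12) : ℝ) * N := by
    have e1 : ((∫ p in PW F 2 R, η p * ‖P p‖ ^ 2 ∂mP : ℝ) : ℂ) = ∫ p in PW F 2 R, (((η p : ℝ) : ℂ) * P p) * conj (P p) ∂mP := by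
      rw [← integral_complex_ofReal]
      congr 1
      funext p
      rw [mul_assoc, Complex.mul_conj, Complex.normSq_eq_norm_sq]
      push_cast
      ring
    have j1 := EDS_mulC (mP.restrict (PW F 2 R)) hPh.meas.aestronglyMeasurable hP.meas.aestronglyMeasurable iPh iP
    have j2 := EDS_mulC (mP.restrict (PW F 2 R)) mηP.aestronglyMeasurable hP.meas.aestronglyMeasurable iηP iP
    rw [e1, ← integral_sub j1 j2]
    have e2 : (fun p => Ph p * conj (P p) - (((η p : ℝ) : ℂ) * P p) * conj (P p)) =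
        fun p => (Ph p - ((η p : ℝ) : ℂ) * P p) * conj (P p) := by
      funext p
      ring
    rw [e2]
    have e3 := EDS_cs (mP.restrict (PW F 2 R)) (f := fun p => Ph p - ((η p : ℝ) : ℂ) * P p)
      (hPh.meas.sub mηP).aestronglyMeasurable hP.meas.aestronglyMeasurable
      (EDS_sub (mP.restrict (PW F 2 R)) hPh.meas.aestronglyMeasurable mηP.aestronglyMeasurable iPh iηP) iP
    refine e3.trans ?_
    have e4 : Real.sqrt (∫ p in PW F 2 R, ‖P p‖ ^ 2 ∂mP) ≤ 2 * n := by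
      have : (1 + R ^ (-(1 / 4) : ℝ)) * n ≤ 2 * n := mul_le_mul_of_nonneg_right (by linarith) hn0
      exact hxn.trans this
    calc _ ≤ (L * R ^ (-(1 / 12) : ℝ) * n) * (2 * n) := mul_le_mul sF' e4 (Real.sqrt_nonneg _) (by positivity)
      _ = 2 * L * R ^ (-(1 / 12) : ℝ) * N := by rw [← hn2]; ring
  -- third step
  have hPP : ∫ z in F, φ z * conj (ψ z) = ((nP F 2 R P : ℝ) : ℂ) := by
    rw [hψdef, ← dual1, nP, ← integral_complex_ofReal]
    congr 1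
    funext z
    rw [Complex.mul_conj, Complex.normSq_eq_norm_sq]
  have hZ := EDS_dist hDm hFH hψ hPP
  have s4 : nn F (fun z => φ z - ψ z) ≤ 16 * R ^ (-(1 / 120) : ℝ) * n ^ 2 := by
    refine EDS_num1 (n := n) (x := x) (y := y) (δ := R ^ (-(1 / 4) : ℝ)) (e := R ^ (-(1 / 120) : ℝ)) (nψ := nn F ψ) hn0 hx0 hy0 hδ0 n2 n1
      ?_ hyx hxn ?_ ?_
    · rw [hn2, hy2]
      exact w4.trans w5
    · rw [hZ, hx2, hn2]
    · rw [hx2]
      exact a1'
  have s5 : Real.sqrt (nn F (fun z => φ z - ψ z)) ≤ 4 * R ^ (-(1 / 240) : ℝ) * n := by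
    have e1 := Real.sqrt_le_sqrt s4
    have e2 := EDS_sqrt (R := R) (a := -(1 / 240)) (L := 4) (N := n ^ 2) hR0 (by norm_num)
    have e3 : (2 : ℝ) * (-(1 / 240)) = -(1 / 120) := by norm_num
    rw [e3, Real.sqrt_sq hn0] at e2
    norm_num at e2
    rw [e2] at e1
    exact e1
  have s6 : ‖(∫ z in F, (((h z : ℝ) : ℂ) * φ z) * conj (ψ z)) - ((∫ z in F, h z * ‖φ z‖ ^ 2 : ℝ) : ℂ)‖ ≤
      4 * R ^ (-(1 / 240) : ℝ) * N := by
    have i2 := VSA_isq hDm hFH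
    have i1 := VSA_isq hDm hψ
    have i0 := VSA_isq hDm hhφ
    have e1 : ((∫ z in F, h z * ‖φ z‖ ^ 2 : ℝ) : ℂ) = ∫ z in F, (((h z : ℝ) : ℂ) * φ z) * conj (φ z) := by
      rw [← integral_complex_ofReal]
      congr 1
      funext p
      rw [mul_assoc, Complex.mul_conj, Complex.normSq_eq_norm_sq]
      push_cast
      ring
    have j1 := EDS_mulC (volume.restrict F) hhφ.cont.aestronglyMeasurable hψ.cont.aestronglyMeasurable i0 i1
    have j2 := EDS_mulC (volume.restrict F) hhφ.cont.aestronglyMeasurable hFH.cont.aestronglyMeasurable i0 i2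
    rw [e1, norm_sub_rev, ← integral_sub j2 j1]
    have e2 : (fun z => ((h z : ℝ) : ℂ) * φ z * conj (φ z) - ((h z : ℝ) : ℂ) * φ z * conj (ψ z)) =
        fun z => (((h z : ℝ) : ℂ) * φ z) * conj (φ z - ψ z) := by
      funext z
      rw [map_sub]
      ring
    rw [e2]
    have e3 := EDS_cs (volume.restrict F) (f := fun z => ((h z : ℝ) : ℂ) * φ z) (g := fun z => φ z - ψ z)
      hhφ.cont.aestronglyMeasurable (hFH.cont.sub hψ.cont).aestronglyMeasurable i0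
      (EDS_sub (volume.restrict F) hFH.cont.aestronglyMeasurable hψ.cont.aestronglyMeasurable i2 i1)
    refine e3.trans ?_
    have e4 : Real.sqrt (∫ z in F, ‖((h z : ℝ) : ℂ) * φ z‖ ^ 2) ≤ n := by
      refine Real.sqrt_le_sqrt (integral_mono i0 i2 fun z => ?_)
      show ‖((h z : ℝ) : ℂ) * φ z‖ ^ 2 ≤ ‖φ z‖ ^ 2
      rw [norm_mul, Complex.norm_real, Real.norm_of_nonneg (hh1 z).1, mul_pow]
      exact mul_le_of_le_one_left (by positivity) (pow_le_one₀ (hh1 z).1 (hh1 z).2)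
    calc _ ≤ n * (4 * R ^ (-(1 / 240) : ℝ) * n) := mul_le_mul e4 s5 (Real.sqrt_nonneg _) hn0
      _ = 4 * R ^ (-(1 / 240) : ℝ) * N := by rw [← hn2]; ring
  -- conclusion
  rw [← dual2] at s6
  have s7 : |(∫ p in PW F 2 R, η p * ‖P p‖ ^ 2 ∂mP) - ∫ z in F, h z * ‖φ z‖ ^ 2| ≤
      2 * L * R ^ (-(1 / 12) : ℝ) * N + 4 * R ^ (-(1 / 240) : ℝ) * N := by
    have e1 : ((((∫ p in PW F 2 R, η p * ‖P p‖ ^ 2 ∂mP) - ∫ z in F, h z * ‖φ z‖ ^ 2 : ℝ) : ℝ) : ℂ) =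
        ((∫ p in PW F 2 R, Ph p * conj (P p) ∂mP) - ((∫ z in F, h z * ‖φ z‖ ^ 2 : ℝ) : ℂ)) -
        ((∫ p in PW F 2 R, Ph p * conj (P p) ∂mP) - ((∫ p in PW F 2 R, η p * ‖P p‖ ^ 2 ∂mP : ℝ) : ℂ)) := by
      rw [Complex.ofReal_sub]
      ring
    rw [← Real.norm_eq_abs, ← Complex.norm_real, e1]
    refine (norm_sub_le _ _).trans ?_
    linarith
  have s8 := abs_sub_le (∫ p in PW F 2 R, η p * ‖Φ p‖ ^ 2 ∂mP) (∫ p in PW F 2 R, η p * ‖P p‖ ^ 2 ∂mP) (∫ z in F, h z * ‖φ z‖ ^ 2)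
  have hr : 0 ≤ R ^ (-(1 / 240) : ℝ) := Real.rpow_nonneg hR0.le _
  have s9 : 3 * R ^ (-(1 / 120) : ℝ) + 2 * L * R ^ (-(1 / 12) : ℝ) + 4 * R ^ (-(1 / 240) : ℝ) ≤ (1 + L) * R ^ (-(1 / 250) : ℝ) := by
    have e1 : L * R ^ (-(1 / 12) : ℝ) ≤ L * R ^ (-(1 / 240) : ℝ) := mul_le_mul_of_nonneg_left n5 hL
    have e2 : L * (7 * R ^ (-(1 / 240) : ℝ)) ≤ L * R ^ (-(1 / 250) : ℝ) := mul_le_mul_of_nonneg_left n3 hL
    have e3 : 0 ≤ L * R ^ (-(1 / 240) : ℝ) := mul_nonneg hL hr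
    rw [add_mul, one_mul]
    linarith
  have s10 := mul_le_mul_of_nonneg_right s9 hN0
  refine (s8.trans (add_le_add s1 s7)).trans ?_
  refine le_trans (le_of_eq ?_) s10
  ring

end

end Pool.Agent.VN
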